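import Pool.Agent.Helper64.IG.Goals

/-! Packet SE: surgery below a node. -/

namespace Pool.Agent.Helper64.IG.PkSE

open BT

set_option linter.unusedSectionVars false

variable {E : Type} [DecidableEq E]

/-- node with the distinguished child on the left (`true`) or on the right -/
def mk (c : Bool) (v u : BT E) : BT E := cond c (node v u) (node u v)

theorem mk_set (c : Bool) (v u : BT E) : (mk c v u).set = v.set ∪ u.set := by
  cases c
  · exact Finset.union_comm _ _
  · rfl

theorem mk_psi (lam : Finset E → ℕ) (k q : ℕ) (c : Bool) (v u : BT E) :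
    psi lam k q (mk c v u) = gW k (lam (v.set ∪ u.set)) + hW k (min (lam (v.set ∪ u.set)) q) +
      psi lam k (lam (v.set ∪ u.set)) v + psi lam k (lam (v.set ∪ u.set)) u := by
  cases c
  · show gW k (lam (u.set ∪ v.set)) + hW k (min (lam (u.set ∪ v.set)) q) +
      psi lam k (lam (u.set ∪ v.set)) u + psi lam k (lam (u.set ∪ v.set)) v = _
    rw [Finset.union_comm u.set v.set]
    omega
  · rfl

theorem mk_res_ss (Y : Finset E) (c : Bool) {v u v' u' : BT E} (h1 : v.res Y = some v')
    (h2 : u.res Y = some u') : (mk c v u).res Y = some (mk c v' u') := by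
  cases c
  · show (node u v).res Y = _
    simp only [res, h1, h2]
    rfl
  · show (node v u).res Y = _
    simp only [res, h1, h2]
    rfl

theorem mk_res_sn (Y : Finset E) (c : Bool) {v u v' : BT E} (h1 : v.res Y = some v')
    (h2 : u.res Y = none) : (mk c v u).res Y = some v' := by
  cases c
  · show (node u v).res Y = _
    simp only [res, h1, h2]
  · show (node v u).res Y = _
    simp only [res, h1, h2]

theorem mk_disj (c : Bool) (v u : BT E) :
    (mk c v u).Disj ↔ Disjoint v.set u.set ∧ v.Disj ∧ u.Disj := by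
  cases c
  · show (Disjoint u.set v.set ∧ u.Disj ∧ v.Disj) ↔ _
    rw [disjoint_comm]
    tauto
  · exact Iff.rfl

theorem mk_wle (lam : Finset E → ℕ) (w : ℕ) (c : Bool) (v u : BT E) :
    (mk c v u).WLe lam w ↔ lam (v.set ∪ u.set) ≤ w ∧ v.WLe lam w ∧ u.WLe lam w := by
  cases c
  · show (lam (u.set ∪ v.set) ≤ w ∧ u.WLe lam w ∧ v.WLe lam w) ↔ _
    rw [Finset.union_comm]
    tauto
  · exact Iff.rfl

theorem sub_mk_l (c : Bool) (v u : BT E) : BT.Sub v (mk c v u) := by
  cases c
  · exact BT.Sub.right _ (BT.Sub.refl _)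
  · exact BT.Sub.left _ (BT.Sub.refl _)

theorem sub_mk_r (c : Bool) (v u : BT E) : BT.Sub u (mk c v u) := by
  cases c
  · exact BT.Sub.left _ (BT.Sub.refl _)
  · exact BT.Sub.right _ (BT.Sub.refl _)

theorem sub_trans {r s t : BT E} (h1 : BT.Sub r s) (h2 : BT.Sub s t) : BT.Sub r t := by
  induction h2 with
  | refl => exact h1
  | left b _ ih => exact BT.Sub.left b ih
  | right a _ ih => exact BT.Sub.right a ih

theorem sub_set {s t : BT E} (h : BT.Sub s t) : s.set ⊆ t.set := by
  induction h with
  | refl => exact fun _ h => h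
  | left b _ ih => exact fun x hx => Finset.mem_union_left _ (ih hx)
  | right a _ ih => exact fun x hx => Finset.mem_union_right _ (ih hx)

theorem set_nonempty (t : BT E) : t.set.Nonempty := by
  induction t with
  | leaf e => exact ⟨e, Finset.mem_singleton_self e⟩
  | node a b iha _ => exact iha.mono Finset.subset_union_left

theorem wle_root (lam : Finset E → ℕ) (w : ℕ) {t : BT E} (h : t.WLe lam w) : lam t.set ≤ w := by
  cases t with
  | leaf e => exact h
  | node a b => exact h.1

theorem wle_sub (lam : Finset E → ℕ) (w : ℕ) {s t : BT E} (hs : BT.Sub s t) (h : t.WLe lam w) :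
    s.WLe lam w := by
  induction hs with
  | refl => exact h
  | left b _ ih => exact ih h.2.1
  | right a _ ih => exact ih h.2.2

theorem disj_sub {s t : BT E} (hs : BT.Sub s t) (h : t.Disj) : s.Disj := by
  induction hs with
  | refl => exact h
  | left b _ ih => exact ih h.2.1
  | right a _ ih => exact ih h.2.2

theorem dn_sub {lam : Finset E → ℕ} {k : ℕ} {v f : BT E} (h : BT.Dn lam k v f) : BT.Sub f v := by
  induction h with
  | here f _ => exact BT.Sub.refl _
  | left b _ _ ih => exact BT.Sub.left b ih
  | right a _ _ ih => exact BT.Sub.right a ih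

theorem dn_le {lam : Finset E → ℕ} {k : ℕ} {v f : BT E} (h : BT.Dn lam k v f) :
    k ≤ lam v.set := by
  cases h with
  | here f h => exact h.ge
  | left b h _ => exact h.le
  | right a h _ => exact h.le

/-! weights -/

theorem gW_lt {k l : ℕ} (h : l < k) : gW k l = 0 := by
  unfold gW; rw [if_neg (by omega)]

theorem hW_lt {k l : ℕ} (h : l < k) : hW k l = 0 := by
  unfold hW; rw [if_neg (by omega)]

theorem gW_pos {k l : ℕ} (h : k ≤ l) : 0 < gW k l := by
  unfold gW; rw [if_pos h]; positivity

theorem hW_pos {k l : ℕ} (h : k ≤ l) : 0 < hW k l := by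
  unfold hW; rw [if_pos h]; positivity

theorem hW_mono (k : ℕ) {a b : ℕ} (h : a ≤ b) : hW k a ≤ hW k b := by
  unfold hW
  split_ifs with h1 h2
  · exact Nat.pow_le_pow_right (by norm_num) (by omega)
  · omega
  · exact Nat.zero_le _
  · exact le_refl _

theorem gW_le (k a : ℕ) {m : ℕ} (h : a ≤ m) : gW k a ≤ 4 * 4 ^ (2 * m) := by
  unfold gW
  split_ifs
  · calc 4 ^ (2 * a + 1) ≤ 4 ^ (2 * m + 1) := Nat.pow_le_pow_right (by norm_num) (by omega)
      _ = 4 * 4 ^ (2 * m) := by ring
  · exact Nat.zero_le _

theorem hW_le (k a : ℕ) {m : ℕ} (h : a ≤ m) : hW k a ≤ 4 ^ (2 * m) := by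
  unfold hW
  split_ifs
  · exact Nat.pow_le_pow_right (by norm_num) (by omega)
  · exact Nat.zero_le _

theorem w2_lt {k l a b : ℕ} (hk : k ≤ l) (ha : a < l) (hb : b < l) :
    gW k a + hW k a + gW k b + hW k b < gW k l := by
  obtain ⟨m, rfl⟩ : ∃ m, l = m + 1 := ⟨l - 1, by omega⟩
  have h1 := gW_le k a (m := m) (by omega)
  have h2 := hW_le k a (m := m) (by omega)
  have h3 := gW_le k b (m := m) (by omega)
  have h4 := hW_le k b (m := m) (by omega)
  have h5 : gW k (m + 1) = 64 * 4 ^ (2 * m) := by
    unfold gW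
    rw [if_pos hk]
    ring
  have h6 : 0 < 4 ^ (2 * m) := by positivity
  omega

theorem w2_le {k l a b : ℕ} (ha : a < l) (hb : b < l) :
    gW k a + hW k a + gW k b + hW k b ≤ gW k l := by
  by_cases hk : k ≤ l
  · exact (w2_lt hk ha hb).le
  · rw [gW_lt (show a < k by omega), hW_lt (show a < k by omega), gW_lt (show b < k by omega),
      hW_lt (show b < k by omega)]
    exact Nat.zero_le _

theorem w1_lt {k l a : ℕ} (hk : k ≤ l) (ha : a < l) : gW k a + hW k a < gW k l := by
  have := w2_lt hk ha ha
  omega

theorem w1_le {k l a : ℕ} (ha : a < l) : gW k a + hW k a ≤ gW k l := by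
  have := w2_le (k := k) ha ha
  omega

/-- the potential of a tree with small root value does not depend on `q` -/
theorem psi_const (lam : Finset E → ℕ) (k q : ℕ) (T : BT E) (h : lam T.set < k) :
    psi lam k q T = psi lam k 0 T := by
  cases T with
  | leaf e =>
    have h : lam {e} < k := h
    show gW k (lam {e}) + hW k (min (lam {e}) q) = gW k (lam {e}) + hW k (min (lam {e}) 0)
    rw [hW_lt (show min (lam {e}) q < k by omega), hW_lt (show min (lam {e}) 0 < k by omega)]
  | node a b =>
    have h : lam (a.set ∪ b.set) < k := h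
    show gW k (lam (a.set ∪ b.set)) + hW k (min (lam (a.set ∪ b.set)) q) + _ + _ =
      gW k (lam (a.set ∪ b.set)) + hW k (min (lam (a.set ∪ b.set)) 0) + _ + _
    rw [hW_lt (show min (lam (a.set ∪ b.set)) q < k by omega),
      hW_lt (show min (lam (a.set ∪ b.set)) 0 < k by omega)]

/-- exact dependence on `q` -/
theorem psi_swap (lam : Finset E → ℕ) (k x z : ℕ) (T : BT E) :
    psi lam k x T + hW k (min (lam T.set) z) = psi lam k z T + hW k (min (lam T.set) x) := by
  cases T with
  | leaf e =>
    show gW k (lam {e}) + hW k (min (lam {e}) x) + hW k (min (lam {e}) z) =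
      gW k (lam {e}) + hW k (min (lam {e}) z) + hW k (min (lam {e}) x)
    omega
  | node a b =>
    show gW k (lam (a.set ∪ b.set)) + hW k (min (lam (a.set ∪ b.set)) x) + _ + _ +
      hW k (min (lam (a.set ∪ b.set)) z) =
      gW k (lam (a.set ∪ b.set)) + hW k (min (lam (a.set ∪ b.set)) z) + _ + _ +
      hW k (min (lam (a.set ∪ b.set)) x)
    omega

/-- the weak invariant -/
def W (lam : Finset E → ℕ) (Y : Finset E) (T : BT E) (k : ℕ) (v i o : BT E) : Prop :=
  ∀ x y z, (lam (v.set ∩ Y) = lam v.set → x ≤ z) → (lam (v.set ∪ Y) = lam v.set → y ≤ z) →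
    psi lam k x i + psi lam k y o ≤ psi lam k z v + psi lam k 0 T

/-- the strict invariant -/
def F (lam : Finset E → ℕ) (Y : Finset E) (T : BT E) (k : ℕ) (v i o : BT E) : Prop :=
  ∀ x y z, (lam (v.set ∩ Y) = lam v.set → x ≤ z) → (lam (v.set ∪ Y) = lam v.set → y ≤ z) →
    psi lam k x i + psi lam k y o < psi lam k z v + psi lam k 0 T

/-- the invariant at the inner nodes -/
def U (lam : Finset E → ℕ) (Y : Finset E) (T : BT E) (k : ℕ) (v i o : BT E) : Prop :=
  lam (v.set ∩ Y) = lam v.set ∧ ∀ x y z,
    psi lam k x i + psi lam k y o + hW k (min (lam v.set) z) ≤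
      psi lam k z v + psi lam k 0 T + hW k (min (lam v.set) x)

theorem numA {k μ a b l x y z : ℕ} (hk : μ < k) (hs : a + b ≤ l + μ) (ha : μ ≤ a) (hb : μ ≤ b)
    (_hl : μ < l) (hx : a = l → x ≤ z) (hy : b = l → y ≤ z) :
    gW k a + hW k (min a x) + (gW k b + hW k (min b y)) ≤ gW k l + hW k (min l z) := by
  by_cases h1 : a = l
  · have hb' : b = μ := by omega
    have h2 := hW_mono k (show min a x ≤ min l z by have := hx h1; omega)
    rw [hb', gW_lt hk, hW_lt (show min μ y < k by omega), h1]
    rw [h1] at h2
    omega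
  · by_cases h2 : b = l
    · have ha' : a = μ := by omega
      have h3 := hW_mono k (show min b y ≤ min l z by have := hy h2; omega)
      rw [ha', gW_lt hk, hW_lt (show min μ x < k by omega), h2]
      rw [h2] at h3
      omega
    · have h3 := w2_le (k := k) (show a < l by omega) (show b < l by omega)
      have h4 := hW_mono k (min_le_left a x)
      have h5 := hW_mono k (min_le_left b y)
      omega

theorem numA_lt {k a b l : ℕ} (x y z : ℕ) (hk : k ≤ l) (ha : a < l) (hb : b < l) :
    gW k a + hW k (min a x) + (gW k b + hW k (min b y)) < gW k l + hW k (min l z) := by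
  have h3 := w2_lt hk ha hb
  have h4 := hW_mono k (min_le_left a x)
  have h5 := hW_mono k (min_le_left b y)
  omega

theorem numB {k a l x z : ℕ} (ha : a ≤ l) (hx : a = l → x ≤ z) :
    gW k a + hW k (min a x) ≤ gW k l + hW k (min l z) := by
  by_cases h1 : a = l
  · have h2 := hW_mono k (show min a x ≤ min l z by have := hx h1; omega)
    rw [h1] at h2 ⊢
    omega
  · have h3 := w1_le (k := k) (show a < l by omega)
    have h4 := hW_mono k (min_le_left a x)
    omega

theorem numB_lt {k a l : ℕ} (x z : ℕ) (hk : k ≤ l) (ha : a < l) :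
    gW k a + hW k (min a x) < gW k l + hW k (min l z) := by
  have h3 := w1_lt hk ha
  have h4 := hW_mono k (min_le_left a x)
  omega

/-- the data of the surgery -/
structure Ctx [Fintype E] (lam : Finset E → ℕ) (w μ : ℕ) (e f : BT E) (Y : Finset E) : Prop where
  sym : SymSub lam
  disj : e.Disj
  wle : e.WLe lam w
  fY : f.set ⊆ Y
  Ye : Y ⊆ e.set
  mu : lam Y = μ
  min : ∀ Z, f.set ⊆ Z → Z ⊆ e.set → μ ≤ lam Z
  split : ∀ v, BT.Sub v e → Disjoint v.set f.set → (v.set ∩ Y).Nonempty → (v.set \ Y).Nonempty →
      lam (v.set ∩ Y) < lam v.set ∧ lam (v.set \ Y) < lam v.set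

/-- the invariant -/
def Inv (lam : Finset E → ℕ) (w μ : ℕ) (Y : Finset E) (T v : BT E) : Prop :=
  ∃ i o, v.res Y = some i ∧ o.set = v.set ∪ Y ∧ o.Disj ∧ o.WLe lam w ∧
    (∀ k, μ < k → W lam Y T k v i o) ∧ (U lam Y T (μ + 1) v i o ∨ F lam Y T (μ + 1) v i o)

section
variable [Fintype E] {lam : Finset E → ℕ} {w μ : ℕ} {e f : BT E} {Y : Finset E}

theorem Ctx.sum (C : Ctx lam w μ e f Y) {Z : Finset E} : lam (Z ∩ Y) + lam (Z ∪ Y) ≤ lam Z + μ := by
  have := C.sym.submod Z Y
  rwa [C.mu] at this

theorem Ctx.cup (C : Ctx lam w μ e f Y) {Z : Finset E} (hZ : Z ⊆ e.set) : μ ≤ lam (Z ∪ Y) :=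
  C.min _ (C.fY.trans Finset.subset_union_right) (Finset.union_subset hZ C.Ye)

theorem Ctx.cap (C : Ctx lam w μ e f Y) {Z : Finset E} (hZ : f.set ⊆ Z) : μ ≤ lam (Z ∩ Y) :=
  C.min _ (Finset.subset_inter hZ C.fY) (Finset.inter_subset_right.trans C.Ye)

theorem Ctx.sdiff (C : Ctx lam w μ e f Y) {Z : Finset E} (hZ : Disjoint Z f.set) :
    lam (Z ∩ Yᶜ) ≤ lam Z := by
  have h1 := C.sym.submod Zᶜ Y
  rw [C.mu, C.sym.symm] at h1
  have h2 : Zᶜ ∪ Y = (Z ∩ Yᶜ)ᶜ := by
    rw [Finset.compl_inter, compl_compl]
  rw [h2, C.sym.symm] at h1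
  have h3 : μ ≤ lam (Zᶜ ∩ Y) := by
    refine C.min _ ?_ (Finset.inter_subset_right.trans C.Ye)
    refine Finset.subset_inter ?_ C.fY
    intro x hx
    rw [Finset.mem_compl]
    exact fun h => (Finset.disjoint_left.1 hZ h) hx
  omega

theorem step (rb : G_RB) (rspl : G_RSPL) (C : Ctx lam w μ e f Y) {T v u : BT E} (c : Bool)
    (hp : BT.Sub (mk c v u) e) (hfv : f.set ⊆ v.set) (huf : Disjoint u.set f.set)
    (hv : μ < lam v.set) (hpl : μ < lam (v.set ∪ u.set)) (I : Inv lam w μ Y T v) :
    Inv lam w μ Y T (mk c v u) := by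
  obtain ⟨i, o, hi, ho, hod, how, IW, hUF⟩ := I
  have hpd := (mk_disj c v u).1 (disj_sub hp C.disj)
  have hpw := (mk_wle lam w c v u).1 (wle_sub lam w hp C.wle)
  have hpe : v.set ∪ u.set ⊆ e.set := by
    have := sub_set hp
    rwa [mk_set] at this
  have hve : v.set ⊆ e.set := Finset.subset_union_left.trans hpe
  have hfp : f.set ⊆ v.set ∪ u.set := hfv.trans Finset.subset_union_left
  have hue : BT.Sub u e := sub_trans (sub_mk_r c v u) hp
  have his : i.set = v.set ∩ Y := ((rb E Y v).2.2.1 i hi).1
  have s1 := C.sum (Z := v.set)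
  have s2 := C.cap hfv
  have s3 := C.cup hve
  have s1' := C.sum (Z := v.set ∪ u.set)
  have s2' := C.cap hfp
  have s3' := C.cup hpe
  have mono : ∀ (k q q' : ℕ) (s : BT E), q ≤ q' → psi lam k q s ≤ psi lam k q' s :=
    fun k q q' s h => (rb E Y s).2.2.2.1 lam k q q' h
  have trunc : ∀ (k q : ℕ) (s : BT E), psi lam k q s = psi lam k (min q (lam s.set)) s :=
    fun k q s => (rb E Y s).2.2.2.2 lam k q
  have hpout : lam (v.set ∪ u.set ∪ Y) ≤ w := by
    have := hpw.1
    omega
  have huv : ∀ x ∈ u.set, x ∉ v.set := fun x hx h => Finset.disjoint_left.1 hpd.1 h hx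
  rcases hcu : u.res Y with _ | uy
  · -- `u ∩ Y = ∅`
    have huY : u.set ∩ Y = ∅ := (rb E Y u).1.1 hcu
    have huYc : u.set ⊆ Yᶜ := by
      intro x hx
      rw [Finset.mem_compl]
      intro h
      have : x ∈ u.set ∩ Y := Finset.mem_inter.2 ⟨hx, h⟩
      rw [huY] at this
      simp at this
    have e1 : (v.set ∪ u.set) ∩ Y = v.set ∩ Y := by
      rw [Finset.union_inter_distrib_right, huY, Finset.union_empty]
    have e2 : o.set ∪ u.set = v.set ∪ u.set ∪ Y := by
      rw [ho]
      ext x
      simp only [Finset.mem_union]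
      tauto
    rw [e1] at s1' s2'
    have hodu : Disjoint o.set u.set := by
      rw [ho, Finset.disjoint_right]
      intro x hx
      rw [Finset.mem_union]
      rintro (h | h)
      · exact huv x hx h
      · exact (Finset.mem_compl.1 (huYc hx)) h
    have ptr : ∀ k x, psi lam k x i = psi lam k (min x (lam (v.set ∩ Y))) i := by
      intro k x
      rw [trunc k x i, his]
    have fin : ∀ k x y z, psi lam k x i + psi lam k (lam (v.set ∪ u.set ∪ Y)) o +
        (gW k (lam (v.set ∪ u.set ∪ Y)) + hW k (min (lam (v.set ∪ u.set ∪ Y)) y)) ≤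
        psi lam k (lam (v.set ∪ u.set)) v + psi lam k 0 T +
        (gW k (lam (v.set ∪ u.set)) + hW k (min (lam (v.set ∪ u.set)) z)) →
        psi lam k x i + psi lam k y (mk c o u) ≤ psi lam k z (mk c v u) + psi lam k 0 T := by
      intro k x y z h
      rw [mk_psi, mk_psi, e2]
      have h2 := mono k (lam (v.set ∪ u.set ∪ Y)) (lam (v.set ∪ u.set)) u (by omega)
      omega
    have finlt : ∀ k x y z, psi lam k x i + psi lam k (lam (v.set ∪ u.set ∪ Y)) o +
        (gW k (lam (v.set ∪ u.set ∪ Y)) + hW k (min (lam (v.set ∪ u.set ∪ Y)) y)) <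
        psi lam k (lam (v.set ∪ u.set)) v + psi lam k 0 T +
        (gW k (lam (v.set ∪ u.set)) + hW k (min (lam (v.set ∪ u.set)) z)) →
        psi lam k x i + psi lam k y (mk c o u) < psi lam k z (mk c v u) + psi lam k 0 T := by
      intro k x y z h
      rw [mk_psi, mk_psi, e2]
      have h2 := mono k (lam (v.set ∪ u.set ∪ Y)) (lam (v.set ∪ u.set)) u (by omega)
      omega
    refine ⟨i, mk c o u, mk_res_sn Y c hi hcu, ?_, ?_, ?_, ?_, ?_⟩
    · rw [mk_set, mk_set, e2]
    · exact (mk_disj c o u).2 ⟨hodu, hod, hpd.2.2⟩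
    · exact (mk_wle lam w c o u).2 ⟨by rw [e2]; exact hpout, how, hpw.2.2⟩
    · intro k hk x y z hx hy
      rw [mk_set, e1] at hx
      rw [mk_set] at hy
      refine fin k x y z ?_
      have h3 := numB (k := k) (a := lam (v.set ∪ u.set ∪ Y)) (l := lam (v.set ∪ u.set)) (x := y)
        (z := z) (by omega) hy
      have h4 := IW k hk (min x (lam (v.set ∩ Y))) (lam (v.set ∪ u.set ∪ Y)) (lam (v.set ∪ u.set))
        (by intro _; omega) (by intro _; omega)
      rw [← ptr] at h4
      omega
    · right
      intro x y z hx hy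
      rw [mk_set, e1] at hx
      rw [mk_set] at hy
      refine finlt (μ + 1) x y z ?_
      rcases hUF with hU | hF
      · -- from (U)
        have hal := hU.1
        have h4 := IW (μ + 1) (by omega) (min x (lam (v.set ∩ Y))) (lam (v.set ∪ u.set ∪ Y))
          (lam (v.set ∪ u.set)) (by intro _; omega) (by intro _; omega)
        rw [← ptr] at h4
        have h3 := numB_lt (k := μ + 1) (a := lam (v.set ∪ u.set ∪ Y)) (l := lam (v.set ∪ u.set)) y z
          (by omega) (by omega)
        omega
      · have h3 := numB (k := μ + 1) (a := lam (v.set ∪ u.set ∪ Y)) (l := lam (v.set ∪ u.set))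
          (x := y) (z := z) (by omega) hy
        have h4 := hF (min x (lam (v.set ∩ Y))) (lam (v.set ∪ u.set ∪ Y)) (lam (v.set ∪ u.set))
          (by intro _; omega) (by intro _; omega)
        rw [← ptr] at h4
        omega
  · rcases hcc : u.res Yᶜ with _ | uc
    · -- `u ⊆ Y`
      have huYc : u.set ∩ Yᶜ = ∅ := (rb E Yᶜ u).1.1 hcc
      have huY : u.set ⊆ Y := by
        intro x hx
        by_contra h
        have : x ∈ u.set ∩ Yᶜ := Finset.mem_inter.2 ⟨hx, Finset.mem_compl.2 h⟩
        rw [huYc] at this
        simp at this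
      have huy : u.res Y = some u := (rb E Y u).2.1 huY
      have e1 : i.set ∪ u.set = (v.set ∪ u.set) ∩ Y := by
        rw [his, Finset.union_inter_distrib_right, Finset.inter_eq_left.2 huY]
      have e2 : v.set ∪ Y = v.set ∪ u.set ∪ Y := by
        ext x
        simp only [Finset.mem_union]
        constructor
        · tauto
        · rintro ((h | h) | h)
          · exact Or.inl h
          · exact Or.inr (huY h)
          · exact Or.inr h
      rw [← e2] at s1' s3' hpout
      have ptr : ∀ k y, psi lam k y o = psi lam k (min y (lam (v.set ∪ Y))) o := by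
        intro k y
        rw [trunc k y o, ho]
      have fin : ∀ k x y z r r', psi lam k (lam ((v.set ∪ u.set) ∩ Y)) i + psi lam k y o +
          (gW k (lam ((v.set ∪ u.set) ∩ Y)) + hW k (min (lam ((v.set ∪ u.set) ∩ Y)) x)) + r ≤
          psi lam k (lam (v.set ∪ u.set)) v + psi lam k 0 T +
          (gW k (lam (v.set ∪ u.set)) + hW k (min (lam (v.set ∪ u.set)) z)) + r' →
          psi lam k x (mk c i u) + psi lam k y o + r ≤
            psi lam k z (mk c v u) + psi lam k 0 T + r' := by
        intro k x y z r r' h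
        rw [mk_psi, mk_psi, e1]
        have h2 := mono k (lam ((v.set ∪ u.set) ∩ Y)) (lam (v.set ∪ u.set)) u (by omega)
        omega
      refine ⟨mk c i u, o, mk_res_ss Y c hi huy, ?_, hod, how, ?_, ?_⟩
      · rw [mk_set, ho, e2]
      · intro k hk x y z hx hy
        rw [mk_set] at hx
        rw [mk_set, ← e2] at hy
        have := fin k x y z 0 0 ?_
        · exact this
        have h3 := numB (k := k) (a := lam ((v.set ∪ u.set) ∩ Y)) (l := lam (v.set ∪ u.set)) (x := x)
          (z := z) (by omega) hx
        have h4 := IW k hk (lam ((v.set ∪ u.set) ∩ Y)) (min y (lam (v.set ∪ Y)))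
          (lam (v.set ∪ u.set)) (by intro _; omega) (by intro _; omega)
        rw [← ptr] at h4
        omega
      · rcases hUF with hU | hF
        · have hal := hU.1
          by_cases hin : lam ((v.set ∪ u.set) ∩ Y) = lam (v.set ∪ u.set)
          · left
            refine ⟨by rw [mk_set]; exact hin, ?_⟩
            intro x y z
            refine fin (μ + 1) x y z _ _ ?_
            rw [mk_set]
            have h4 := IW (μ + 1) (by omega) (lam (v.set ∪ u.set)) (min y (lam (v.set ∪ Y)))
              (lam (v.set ∪ u.set)) (by intro _; omega) (by intro _; omega)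
            rw [← ptr] at h4
            rw [hin]
            omega
          · right
            intro x y z hx hy
            have := fin (μ + 1) x y z 1 0 ?_
            · omega
            have h3 := numB_lt (k := μ + 1) (a := lam ((v.set ∪ u.set) ∩ Y))
              (l := lam (v.set ∪ u.set)) x z (by omega) (by omega)
            have h4 := IW (μ + 1) (by omega) (lam ((v.set ∪ u.set) ∩ Y))
              (min y (lam (v.set ∪ Y))) (lam (v.set ∪ u.set)) (by intro _; omega)
              (by intro _; omega)
            rw [← ptr] at h4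
            omega
        · right
          intro x y z hx hy
          rw [mk_set] at hx
          rw [mk_set, ← e2] at hy
          have := fin (μ + 1) x y z 1 0 ?_
          · omega
          have h3 := numB (k := μ + 1) (a := lam ((v.set ∪ u.set) ∩ Y)) (l := lam (v.set ∪ u.set))
            (x := x) (z := z) (by omega) hx
          have h4 := hF (lam ((v.set ∪ u.set) ∩ Y)) (min y (lam (v.set ∪ Y)))
            (lam (v.set ∪ u.set)) (by intro _; omega) (by intro _; omega)
          rw [← ptr] at h4
          omega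
    · -- `u` split
      have huy : (u.set ∩ Y).Nonempty := by
        rw [Finset.nonempty_iff_ne_empty]
        intro h
        have := (rb E Y u).1.2 h
        rw [hcu] at this
        simp at this
      have huc : (u.set \ Y).Nonempty := by
        rw [Finset.nonempty_iff_ne_empty]
        intro h
        have h' : u.set ∩ Yᶜ = ∅ := by rw [← Finset.sdiff_eq_inter_compl]; exact h
        have := (rb E Yᶜ u).1.2 h'
        rw [hcc] at this
        simp at this
      have hsub : ∀ t, BT.Sub t u → BT.Sub t e := fun t ht => sub_trans ht hue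
      have hdis : ∀ t, BT.Sub t u → Disjoint t.set f.set := fun t ht =>
        Finset.disjoint_of_subset_left (sub_set ht) huf
      have RS : ∀ k q1 q2, 1 ≤ k → psi lam k q1 uy + psi lam k q2 uc ≤ psi lam k 0 u :=
        fun k q1 q2 hk => rspl E lam Y k u hk hpd.2.2
          (fun t ht h1 h2 => C.split t (hsub t ht) (hdis t ht) h1 h2) uy uc q1 q2 hcu hcc
      obtain ⟨hy1, hy2, hy3⟩ := (rb E Y u).2.2.1 uy hcu
      obtain ⟨hc1, hc2, hc3⟩ := (rb E Yᶜ u).2.2.1 uc hcc
      have hucw : uc.WLe lam w := hc3 lam w fun t ht _ => by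
        have h1 := C.sdiff (hdis t ht)
        have h2 := wle_root lam w (wle_sub lam w (hsub t ht) C.wle)
        omega
      have e1 : i.set ∪ uy.set = (v.set ∪ u.set) ∩ Y := by
        rw [his, hy1, Finset.union_inter_distrib_right]
      have e2 : o.set ∪ uc.set = v.set ∪ u.set ∪ Y := by
        rw [ho, hc1]
        ext x
        simp only [Finset.mem_union, Finset.mem_inter, Finset.mem_compl]
        tauto
      have hodu : Disjoint o.set uc.set := by
        rw [ho, hc1, Finset.disjoint_right]
        intro x hx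
        rw [Finset.mem_inter, Finset.mem_compl] at hx
        rw [Finset.mem_union]
        rintro (h | h)
        · exact huv x hx.1 h
        · exact hx.2 h
      have fin : ∀ k x y z r r', 1 ≤ k → psi lam k (lam ((v.set ∪ u.set) ∩ Y)) i +
          psi lam k (lam (v.set ∪ u.set ∪ Y)) o +
          (gW k (lam ((v.set ∪ u.set) ∩ Y)) + hW k (min (lam ((v.set ∪ u.set) ∩ Y)) x) +
          (gW k (lam (v.set ∪ u.set ∪ Y)) + hW k (min (lam (v.set ∪ u.set ∪ Y)) y))) + r ≤
          psi lam k (lam (v.set ∪ u.set)) v + psi lam k 0 T +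
          (gW k (lam (v.set ∪ u.set)) + hW k (min (lam (v.set ∪ u.set)) z)) + r' →
          psi lam k x (mk c i uy) + psi lam k y (mk c o uc) + r ≤
            psi lam k z (mk c v u) + psi lam k 0 T + r' := by
        intro k x y z r r' hk h
        rw [mk_psi, mk_psi, mk_psi, e1, e2]
        have h2 := mono k 0 (lam (v.set ∪ u.set)) u (Nat.zero_le _)
        have h3 := RS k (lam ((v.set ∪ u.set) ∩ Y)) (lam (v.set ∪ u.set ∪ Y)) hk
        omega
      refine ⟨mk c i uy, mk c o uc, mk_res_ss Y c hi hcu, ?_, ?_, ?_, ?_, ?_⟩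
      · rw [mk_set, mk_set, e2]
      · exact (mk_disj c o uc).2 ⟨hodu, hod, hc2 hpd.2.2⟩
      · exact (mk_wle lam w c o uc).2 ⟨by rw [e2]; exact hpout, how, hucw⟩
      · intro k hk x y z hx hy
        rw [mk_set] at hx hy
        have := fin k x y z 0 0 (by omega) ?_
        · exact this
        have h3 := numA (k := k) (μ := μ) (a := lam ((v.set ∪ u.set) ∩ Y))
          (b := lam (v.set ∪ u.set ∪ Y)) (l := lam (v.set ∪ u.set)) (x := x) (y := y) (z := z)
          hk (by omega) (by omega) (by omega) (by omega) hx hy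
        have h4 := IW k hk (lam ((v.set ∪ u.set) ∩ Y)) (lam (v.set ∪ u.set ∪ Y))
          (lam (v.set ∪ u.set)) (by intro _; omega) (by intro _; omega)
        omega
      · have h4 := IW (μ + 1) (by omega) (lam ((v.set ∪ u.set) ∩ Y)) (lam (v.set ∪ u.set ∪ Y))
          (lam (v.set ∪ u.set)) (by intro _; omega) (by intro _; omega)
        rcases hUF with hU | hF
        · have hal := hU.1
          by_cases hin : lam ((v.set ∪ u.set) ∩ Y) = lam (v.set ∪ u.set)
          · left
            refine ⟨by rw [mk_set]; exact hin, ?_⟩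
            intro x y z
            refine fin (μ + 1) x y z _ _ (by omega) ?_
            rw [mk_set]
            have hb : lam (v.set ∪ u.set ∪ Y) = μ := by omega
            rw [hb] at h4 ⊢
            rw [hin] at h4 ⊢
            rw [gW_lt (show μ < μ + 1 by omega), hW_lt (show min μ y < μ + 1 by omega)]
            omega
          · right
            intro x y z hx hy
            rw [mk_set] at hx hy
            have := fin (μ + 1) x y z 1 0 (by omega) ?_
            · omega
            by_cases hout : lam (v.set ∪ u.set ∪ Y) = lam (v.set ∪ u.set)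
            · -- outer
              have ha : lam ((v.set ∪ u.set) ∩ Y) = μ := by omega
              have h5 := hU.2 μ (lam (v.set ∪ u.set)) (lam (v.set ∪ u.set))
              rw [hW_lt (show min (lam v.set) μ < μ + 1 by omega)] at h5
              have h6 := hW_pos (k := μ + 1) (l := min (lam v.set) (lam (v.set ∪ u.set))) (by omega)
              have h3 := numA (k := μ + 1) (μ := μ) (a := lam ((v.set ∪ u.set) ∩ Y))
                (b := lam (v.set ∪ u.set ∪ Y)) (l := lam (v.set ∪ u.set)) (x := x) (y := y) (z := z)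
                (by omega) (by omega) (by omega) (by omega) (by omega) hx hy
              rw [ha, hout] at h3 ⊢
              omega
            · have h3 := numA_lt (k := μ + 1) (a := lam ((v.set ∪ u.set) ∩ Y))
                (b := lam (v.set ∪ u.set ∪ Y)) (l := lam (v.set ∪ u.set)) x y z
                (by omega) (by omega) (by omega)
              omega
        · right
          intro x y z hx hy
          rw [mk_set] at hx hy
          have := fin (μ + 1) x y z 1 0 (by omega) ?_
          · omega
          have h3 := numA (k := μ + 1) (μ := μ) (a := lam ((v.set ∪ u.set) ∩ Y))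
            (b := lam (v.set ∪ u.set ∪ Y)) (l := lam (v.set ∪ u.set)) (x := x) (y := y) (z := z)
            (by omega) (by omega) (by omega) (by omega) (by omega) hx hy
          have h5 := hF (lam ((v.set ∪ u.set) ∩ Y)) (lam (v.set ∪ u.set ∪ Y))
            (lam (v.set ∪ u.set)) (by intro _; omega) (by intro _; omega)
          omega

theorem base (rb : G_RB) (C : Ctx lam w μ e f Y) {T : BT E} (hTs : T.set = Y) (hTd : T.Disj)
    (hTw : T.WLe lam w) (_hf : μ < lam f.set) : Inv lam w μ Y T f := by
  have hcap : f.set ∩ Y = f.set := Finset.inter_eq_left.2 C.fY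
  have hcup : f.set ∪ Y = Y := Finset.union_eq_right.2 C.fY
  have hTl : lam T.set = μ := by rw [hTs]; exact C.mu
  refine ⟨f, T, (rb E Y f).2.1 C.fY, by rw [hcup, hTs], hTd, hTw, ?_, Or.inl ⟨by rw [hcap], ?_⟩⟩
  · intro k hk x y z hx _
    have hx := hx (by rw [hcap])
    rw [psi_const lam k y T (by omega)]
    have := (rb E Y f).2.2.2.1 lam k x z hx
    omega
  · intro x y z
    rw [psi_const lam (μ + 1) y T (by omega)]
    have := psi_swap lam (μ + 1) x z f
    omega

theorem walk (rb : G_RB) (rspl : G_RSPL) (C : Ctx lam w μ e f Y) {T : BT E} (hTs : T.set = Y)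
    (hTd : T.Disj) (hTw : T.WLe lam w) {k0 : ℕ} (hk0 : μ < k0) {v : BT E}
    (hv : BT.Dn lam k0 v f) (hve : BT.Sub v e) : Inv lam w μ Y T v := by
  induction hv with
  | here f h => exact base rb C hTs hTd hTw (by omega)
  | @left a f b h1 h2 ih =>
    have hs : BT.Sub (mk true a b) e := hve
    have hfa := sub_set (dn_sub h2)
    have hd := (mk_disj true a b).1 (disj_sub hs C.disj)
    have := step rb rspl C (T := T) true hs hfa
      (Finset.disjoint_of_subset_right hfa hd.1.symm) (by have := dn_le h2; omega) (by omega)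
      (ih C (sub_trans (sub_mk_l true a b) hs))
    exact this
  | @right b f a h1 h2 ih =>
    have hs : BT.Sub (mk false b a) e := hve
    have hfa := sub_set (dn_sub h2)
    have hd := (mk_disj false b a).1 (disj_sub hs C.disj)
    have := step rb rspl C (T := T) false hs hfa
      (Finset.disjoint_of_subset_right hfa hd.1.symm) (by have := dn_le h2; omega)
      (by rw [Finset.union_comm]; omega)
      (ih C (sub_trans (sub_mk_l false b a) hs))
    exact this

end

theorem se (rb : G_RB) (rspl : G_RSPL) : G_SE := by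
  intro E _ _ lam w μ e f Y hsym hd hw hst hfY hYe hμ hμe hmin hsplit
  have C : Ctx lam w μ e f Y := ⟨hsym, hd, hw, hfY, hYe, hμ, hmin, hsplit⟩
  have hYne : Y.Nonempty := (set_nonempty f).mono hfY
  have heY : e.set ∩ Y = Y := Finset.inter_eq_right.2 hYe
  rcases hcT : e.res Y with _ | T
  · have := (rb E Y e).1.1 hcT
    rw [heY] at this
    exact absurd this hYne.ne_empty
  obtain ⟨hT1, hT2, hT3⟩ := (rb E Y e).2.2.1 T hcT
  rw [heY] at hT1
  have hTw : T.WLe lam w := hT3 lam w fun t ht _ => by
    have h1 := C.sum (Z := t.set)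
    have h2 := C.cup (sub_set ht)
    have h3 := wle_root lam w (wle_sub lam w ht hw)
    omega
  have I : Inv lam w μ Y T e := by
    cases hst with
    | @left a f b h2 =>
      have hfa := sub_set (dn_sub h2)
      have hdd := (mk_disj true a b).1 hd
      have hs : BT.Sub (mk true a b) (node a b) := BT.Sub.refl _
      have hμe : μ < lam (a.set ∪ b.set) := hμe
      exact step rb rspl C (T := T) true hs hfa
        (Finset.disjoint_of_subset_right hfa hdd.1.symm) (by have := dn_le h2; omega) hμe
        (walk rb rspl C hT1 (hT2 hd) hTw hμe h2 (sub_mk_l true a b))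
    | @right b f a h2 =>
      have hfa := sub_set (dn_sub h2)
      have hdd := (mk_disj false b a).1 hd
      have hs : BT.Sub (mk false b a) (node a b) := BT.Sub.refl _
      have hμe : μ < lam (a.set ∪ b.set) := hμe
      exact step rb rspl C (T := T) false hs hfa
        (Finset.disjoint_of_subset_right hfa hdd.1.symm) (by have := dn_le h2; omega)
        (by rw [Finset.union_comm]; exact hμe)
        (walk rb rspl C hT1 (hT2 hd) hTw hμe h2 (sub_mk_l false b a))
  obtain ⟨i, o, hi, ho, hod, how, IW, hUF⟩ := I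
  rw [hcT] at hi
  have hTi : T = i := by simpa using hi
  subst hTi
  have hce : e.set ∪ Y = e.set := Finset.union_eq_left.2 hYe
  rw [hce] at ho
  refine ⟨o, ho, hod, how, ?_, ?_⟩
  · intro k q hk
    have := IW k hk 0 q q (fun _ => Nat.zero_le _) (fun _ => le_refl _)
    omega
  · intro q
    rcases hUF with hU | hF
    · have := hU.1
      rw [heY, hμ] at this
      omega
    · have := hF 0 q q (fun _ => Nat.zero_le _) (fun _ => le_refl _)
      omega

end Pool.Agent.Helper64.IG.PkSE
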